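import Mathlib

/-! Project H586-TP (MP_4c107d_co): every large family of balanced trees packs into `K_{2n-1,k}`.
Definitions and task statements. -/

set_option autoImplicit false

open Finset

namespace H586TP

/-- a finite tree with exactly `n` vertices in each class of a proper 2-colouring -/
def BalTree (n : ℕ) {V : Type} [Fintype V] (G : SimpleGraph V) : Prop :=
  G.IsTree ∧ ∃ c : V → Bool, (∀ u v, G.Adj u v → c u ≠ c v) ∧
    Nat.card {v // c v = true} = n ∧ Nat.card {v // c v = false} = n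

/-- `P(n,k)` of the problem: every family of `k` trees with `n` vertices in each class packs into
`K_{2n-1,k}` -/
def PackStmt (n k : ℕ) : Prop := ∀ (V : Fin k → Type) [∀ i, Fintype (V i)]
  (G : ∀ i, SimpleGraph (V i)), (∀ i, BalTree n (G i)) →
  ∃ f : ∀ i, V i → Fin (2 * n - 1) ⊕ Fin k,
    (∀ i, Function.Injective (f i)) ∧
    (∀ i u v, (G i).Adj u v →
      (completeBipartiteGraph (Fin (2 * n - 1)) (Fin k)).Adj (f i u) (f i v)) ∧
    ∀ i j, i ≠ j → ∀ u v u' v', (G i).Adj u v → (G j).Adj u' v' →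
      s(f i u, f i v) ≠ s(f j u', f j v')

/-- Bipartite graph with classes `U = Fin n` and `V = Fin n`, with `2n-1` edges and without isolated
vertices: `N v` is the neighbourhood (in `U`) of `v ∈ V`. -/
structure Ty (n : ℕ) where
  N : Fin n → Finset (Fin n)
  ne : ∀ v, (N v).Nonempty
  sum : ∑ v, (N v).card = 2 * n - 1
  cov : ∀ u, ∃ v, u ∈ N v

/-- packing of a family of types into `K_{2n-1, |ι|}`: `U` goes to `Fin (2n-1)`, `V` goes to `ι` -/
def Packs (n : ℕ) {ι : Type} (τ : ι → Ty n) : Prop :=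
  ∃ (φ : ι → (Fin n ↪ Fin (2 * n - 1))) (β : ι → (Fin n ↪ ι)),
    ∀ i j v w, i ≠ j → β i v = β j w →
      Disjoint (((τ i).N v).map (φ i)) (((τ j).N w).map (φ j))

/-- the combinatorial main statement -/
def Main : Prop := ∀ n : ℕ, 1 ≤ n → ∃ k₀ : ℕ, ∀ k : ℕ, k₀ ≤ k → ∀ τ : Fin k → Ty n, Packs n τ

/-- TASK G: translation to graphs -/
def TaskG : Prop := Main → ∀ n : ℕ, 1 ≤ n → ∃ k₀ : ℕ, ∀ k : ℕ, k₀ ≤ k → PackStmt n k

/-- one type -/
def L1 : Prop := ∀ n : ℕ, 2 ≤ n → ∀ t : Ty n, ∃ K : ℕ, ∀ k : ℕ, K ≤ k →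
  Packs n (fun _ : Fin k => t)

/-- one copy of `t₀` and `q` copies of `t` -/
def L2 : Prop := ∀ n : ℕ, 2 ≤ n → ∀ t₀ t : Ty n, ∃ q : ℕ,
  Packs n (fun i : Option (Fin q) => i.elim t₀ (fun _ => t))

/-- TASK A: assembly -/
def TaskA : Prop := L1 → L2 → Main

/-- TASK R: rainbow rearrangement (Hall) -/
def TaskR : Prop := ∀ (m : ℕ) (I B : Type) [Fintype I] (β : Fin m → I → B),
  (∀ v, Function.Injective (β v)) → 2 * m ≤ Fintype.card I →
  ∃ π : Fin m → Equiv.Perm I, ∀ i, Function.Injective (fun v => β v (π v i))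

/-- TASK S: all subset sums -/
def TaskS : Prop := ∀ (n : ℕ) (d : Fin n → ℕ), (∀ v, 1 ≤ d v) → ∑ v, d v = 2 * n - 1 →
  ∀ s : ℕ, s ≤ 2 * n - 1 → ∃ W : Finset (Fin n), ∑ v ∈ W, d v = s

/-- TASK D: disjoint sets with prescribed sizes -/
def TaskD : Prop := ∀ (α L : Type) [DecidableEq α] [Fintype L] (X : Finset α) (d : L → ℕ),
  ∑ l, d l ≤ X.card → ∃ Z : L → Finset α, (∀ l, (Z l).card = d l) ∧ (∀ l, Z l ⊆ X) ∧
    ∀ l l', l ≠ l' → Disjoint (Z l) (Z l')

/-- the columns made of the sizes of `t` -/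
def Col {n : ℕ} (t : Ty n) : Type :=
  {c : Fin n → Finset (Fin (2 * n - 1)) // (∀ v, (c v).card = (t.N v).card) ∧
    ∀ v w, v ≠ w → Disjoint (c v) (c w)}

open Classical in
noncomputable instance {n : ℕ} (t : Ty n) : Fintype (Col t) := by
  unfold Col; infer_instance

open Classical in
/-- COUNT (helper586): numbers of trees and columns with the same supports -/
def Count : Prop := ∀ n : ℕ, 2 ≤ n → ∀ (t : Ty n) (r : ℕ)
  (Z : Fin r → Fin n → Finset (Fin (2 * n - 1))), (∀ i v, (Z i v).card = (t.N v).card) →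
  ∃ K : ℕ, ∀ k : ℕ, K ≤ k → ∃ (y : (Fin n ↪ Fin (2 * n - 1)) → ℕ) (x : Col t → ℕ),
    (∀ φ, 2 * n ≤ y φ) ∧ ∑ φ, y φ = k ∧ ∑ c, x c + r = k ∧
    ∀ S : Finset (Fin (2 * n - 1)),
      ∑ φ, y φ * (univ.filter (fun v => (t.N v).map φ = S)).card =
        ∑ c, x c * (univ.filter (fun v => c.1 v = S)).card +
          (univ.filter (fun p : Fin r × Fin n => Z p.1 p.2 = S)).card

open Classical in
/-- REALISATION: trees `i : I` (all of type `t`) with embeddings `φ i` (each embedding used `0` or at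
least `2n` times), slots `l : Λ` in columns `col l : B` with sets `Z l`, disjoint inside a column, with
enough slots for every set. -/
def Real : Prop := ∀ (n : ℕ) (t : Ty n) (I Λ B : Type) [Fintype I] [Fintype Λ]
  (φ : I → (Fin n ↪ Fin (2 * n - 1))) (col : Λ → B) (Z : Λ → Finset (Fin (2 * n - 1))),
  (∀ i, 2 * n ≤ (univ.filter (fun j => φ j = φ i)).card) →
  (∀ l l', l ≠ l' → col l = col l' → Disjoint (Z l) (Z l')) →
  (∀ S : Finset (Fin (2 * n - 1)),
    (univ.filter (fun p : I × Fin n => (t.N p.2).map (φ p.1) = S)).card ≤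
      (univ.filter (fun l => Z l = S)).card) →
  ∃ f : I → Fin n → Λ, (∀ i v, Z (f i v) = (t.N v).map (φ i)) ∧
    (∀ i j v w, f i v = f j w → i = j ∧ v = w) ∧
    ∀ i, Function.Injective (fun v => col (f i v))

/-- TASK X -/
def TaskX : Prop := TaskR → Real

/-- TASK L1 -/
def TaskL1 : Prop := Count → Real → L1

/-- TASK L2 -/
def TaskL2 : Prop := Count → Real → TaskS → TaskD → L2

/-- assembly -/
theorem final (hG : TaskG) (hA : TaskA) (hR : TaskR) (hS : TaskS) (hD : TaskD) (hC : Count)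
    (hX : TaskX) (h1 : TaskL1) (h2 : TaskL2) :
    ∀ n : ℕ, 1 ≤ n → ∃ k₀ : ℕ, ∀ k : ℕ, k₀ ≤ k → PackStmt n k :=
  hG (hA (h1 hC (hX hR)) (h2 hC (hX hR) hS hD))

end H586TP
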