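import Pool.Agent.H586R3.TP.Stmts

/-! COUNT (helper586). -/

set_option autoImplicit false
set_option linter.unusedSectionVars false
set_option linter.unusedVariables false

open Finset

namespace H586TP

namespace Cnt

section

variable {n : ℕ} (t : Ty n)

open Classical in
/-- indicator of the set `S` -/
noncomputable def sg {n : ℕ} (S : Finset (Fin (2 * n - 1))) : Finset (Fin (2 * n - 1)) → ℤ :=
  Pi.single S 1

/-- supports of a tree -/
noncomputable def tt (φ : Fin n ↪ Fin (2 * n - 1)) : Finset (Fin (2 * n - 1)) → ℤ :=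
  ∑ v, sg ((t.N v).map φ)

/-- supports of a column -/
noncomputable def qq (c : Col t) : Finset (Fin (2 * n - 1)) → ℤ := ∑ v, sg (c.1 v)

/-- the group of differences -/
def EE : AddSubgroup (Finset (Fin (2 * n - 1)) → ℤ) :=
  AddSubgroup.closure ({g | ∃ φ φ', g = tt t φ - tt t φ'} ∪ {g | ∃ c c', g = qq t c - qq t c'})

lemma tt_mem (φ φ' : Fin n ↪ Fin (2 * n - 1)) : tt t φ - tt t φ' ∈ EE t :=
  AddSubgroup.subset_closure (Or.inl ⟨φ, φ', rfl⟩)

lemma qq_mem (c c' : Col t) : qq t c - qq t c' ∈ EE t :=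
  AddSubgroup.subset_closure (Or.inr ⟨c, c', rfl⟩)

/-- explicit form of the elements of `EE` -/
lemma explicit (g : Finset (Fin (2 * n - 1)) → ℤ) (hg : g ∈ EE t) :
    ∃ (y : (Fin n ↪ Fin (2 * n - 1)) → ℤ) (x : Col t → ℤ), ∑ φ, y φ = 0 ∧ ∑ c, x c = 0 ∧
      g = ∑ φ, y φ • tt t φ + ∑ c, x c • qq t c := by
  classical
  unfold EE at hg
  induction hg using AddSubgroup.closure_induction with
  | mem g hg =>
    rcases hg with ⟨φ, φ', rfl⟩ | ⟨c, c', rfl⟩
    · refine ⟨Pi.single φ 1 - Pi.single φ' 1, 0, ?_, by simp, ?_⟩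
      · simp
      · simp [sub_smul, Finset.sum_sub_distrib, Pi.single_apply]
    · refine ⟨0, Pi.single c 1 - Pi.single c' 1, by simp, ?_, ?_⟩
      · simp
      · simp [sub_smul, Finset.sum_sub_distrib, Pi.single_apply]
  | zero => exact ⟨0, 0, by simp, by simp, by simp⟩
  | add g g' _ _ ih ih' =>
    obtain ⟨y, x, hy, hx, h⟩ := ih
    obtain ⟨y', x', hy', hx', h'⟩ := ih'
    refine ⟨y + y', x + x', ?_, ?_, ?_⟩
    · simp [Finset.sum_add_distrib, hy, hy']
    · simp [Finset.sum_add_distrib, hx, hx']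
    · rw [h, h']
      simp only [Pi.add_apply, add_smul, Finset.sum_add_distrib]
      abel
  | neg g _ ih =>
    obtain ⟨y, x, hy, hx, h⟩ := ih
    refine ⟨-y, -x, ?_, ?_, ?_⟩
    · simp [Finset.sum_neg_distrib, hy]
    · simp [Finset.sum_neg_distrib, hx]
    · rw [h]
      simp only [Pi.neg_apply, neg_smul, Finset.sum_neg_distrib]
      abel

/-! ### leaves -/

lemma card_pos (v : Fin n) : 1 ≤ (t.N v).card := Finset.card_pos.2 (t.ne v)

lemma exists_leafV (hn : 1 ≤ n) : ∃ v, (t.N v).card = 1 := by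
  by_contra hcon
  push Not at hcon
  have h2 : ∀ v ∈ (univ : Finset (Fin n)), 2 ≤ (t.N v).card := fun v _ => by
    have := card_pos t v; have := hcon v; omega
  have := Finset.card_nsmul_le_sum _ _ _ h2
  rw [t.sum] at this
  simp at this
  omega

lemma exists_leafU (hn : 1 ≤ n) : ∃ u v, u ∈ t.N v ∧ ∀ w, u ∈ t.N w → w = v := by
  classical
  have hsum : ∑ u, (univ.filter (fun v => u ∈ t.N v)).card = 2 * n - 1 := by
    rw [← t.sum]
    simp only [Finset.card_filter]
    rw [Finset.sum_comm]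
    refine Finset.sum_congr rfl fun v _ => ?_
    simp
  by_contra hcon
  push Not at hcon
  have h2 : ∀ u ∈ (univ : Finset (Fin n)), 2 ≤ (univ.filter (fun v => u ∈ t.N v)).card := by
    intro u _
    obtain ⟨v, hv⟩ := t.cov u
    obtain ⟨w, hw, hwv⟩ := hcon u v hv
    have : ({v, w} : Finset (Fin n)) ⊆ univ.filter (fun v => u ∈ t.N v) := by
      intro z hz
      rw [mem_insert, mem_singleton] at hz
      rcases hz with rfl | rfl <;> simp [hv, hw]
    calc 2 = ({v, w} : Finset (Fin n)).card := (Finset.card_pair (Ne.symm hwv)).symm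
      _ ≤ _ := Finset.card_le_card this
  have := Finset.card_nsmul_le_sum _ _ _ h2
  rw [hsum] at this
  simp at this
  omega

/-! ### permutations -/

/-- image of a set under a permutation -/
def pm {n : ℕ} (σ : Equiv.Perm (Fin (2 * n - 1))) (S : Finset (Fin (2 * n - 1))) :
    Finset (Fin (2 * n - 1)) := S.map σ.toEmbedding

lemma mem_pm {n : ℕ} (σ : Equiv.Perm (Fin (2 * n - 1))) (S : Finset (Fin (2 * n - 1)))
    (a : Fin (2 * n - 1)) : a ∈ pm σ S ↔ σ.symm a ∈ S := by
  unfold pm
  rw [Finset.mem_map_equiv]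

lemma card_pm {n : ℕ} (σ : Equiv.Perm (Fin (2 * n - 1))) (S : Finset (Fin (2 * n - 1))) :
    (pm σ S).card = S.card := Finset.card_map _

lemma pm_map {n : ℕ} (σ : Equiv.Perm (Fin (2 * n - 1))) (φ : Fin n ↪ Fin (2 * n - 1))
    (S : Finset (Fin n)) : S.map (φ.trans σ.toEmbedding) = pm σ (S.map φ) := by
  unfold pm
  rw [Finset.map_map]

/-- image of a column -/
def pc (σ : Equiv.Perm (Fin (2 * n - 1))) (c : Col t) : Col t :=
  ⟨fun v => pm σ (c.1 v), fun v => by rw [card_pm]; exact c.2.1 v,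
    fun v w hvw => by
      have := c.2.2 v w hvw
      unfold pm
      rwa [Finset.disjoint_map]⟩

lemma pm_swap_of_notMem {n : ℕ} (a b : Fin (2 * n - 1)) (S : Finset (Fin (2 * n - 1)))
    (ha : a ∉ S) (hb : b ∉ S) : pm (Equiv.swap a b) S = S := by
  ext x
  rw [mem_pm, Equiv.symm_swap]
  by_cases hxa : x = a
  · subst hxa; simp [ha, hb]
  by_cases hxb : x = b
  · subst hxb; simp [ha, hb]
  rw [Equiv.swap_apply_of_ne_of_ne hxa hxb]

/-! ### exchange -/

lemma exists_col (hD : TaskD) (v v₁ : Fin n) (hv : v ≠ v₁) (h1 : (t.N v₁).card = 1)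
    (S : Finset (Fin (2 * n - 1))) (hS : S.card = (t.N v).card) (b : Fin (2 * n - 1))
    (hb : b ∉ S) : ∃ c : Col t, c.1 v = S ∧ c.1 v₁ = {b} := by
  classical
  have hsum : ∑ l : {w : Fin n // w ≠ v ∧ w ≠ v₁}, (t.N l.1).card + (t.N v).card +
      (t.N v₁).card = 2 * n - 1 := by
    rw [← t.sum]
    rw [← Finset.sum_filter_add_sum_filter_not univ (fun w : Fin n => w ≠ v ∧ w ≠ v₁)]
    have e1 : ∑ l : {w : Fin n // w ≠ v ∧ w ≠ v₁}, (t.N l.1).card =
        ∑ w ∈ univ.filter (fun w : Fin n => w ≠ v ∧ w ≠ v₁), (t.N w).card := by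
      rw [← Finset.sum_subtype (univ.filter (fun w : Fin n => w ≠ v ∧ w ≠ v₁))
        (p := fun w : Fin n => w ≠ v ∧ w ≠ v₁) (by simp) (fun w => (t.N w).card)]
    have e2 : univ.filter (fun w : Fin n => ¬ (w ≠ v ∧ w ≠ v₁)) = {v, v₁} := by
      ext w; simp only [mem_filter, mem_univ, true_and, mem_insert, mem_singleton]; tauto
    rw [e1, e2, Finset.sum_pair hv]
    ring
  have hXc : (univ \ (insert b S)).card = 2 * n - 1 - (S.card + 1) := by
    rw [Finset.card_sdiff_of_subset (subset_univ _), Finset.card_insert_of_notMem hb]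
    simp
  obtain ⟨Z, hZ1, hZ2, hZ3⟩ := hD (Fin (2 * n - 1)) {w : Fin n // w ≠ v ∧ w ≠ v₁}
    (univ \ (insert b S)) (fun l => (t.N l.1).card) (by rw [hXc]; omega)
  have hZS : ∀ l, Disjoint (Z l) S := fun l => by
    rw [Finset.disjoint_left]
    intro x hx hxS
    have := hZ2 l hx
    simp [hxS] at this
  have hZb : ∀ l, b ∉ Z l := fun l hx => by
    have := hZ2 l hx
    simp at this
  refine ⟨⟨fun w => if h : w ≠ v ∧ w ≠ v₁ then Z ⟨w, h⟩ else if w = v then S else {b}, ?_, ?_⟩,
    ?_, ?_⟩
  · intro w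
    by_cases h : w ≠ v ∧ w ≠ v₁
    · simp only [dif_pos h]; exact hZ1 ⟨w, h⟩
    · simp only [dif_neg h]
      by_cases h' : w = v
      · subst h'; simp [hS]
      · rw [if_neg h']
        have : w = v₁ := by tauto
        subst this; simp [h1]
  · intro w w' hww
    by_cases h : w ≠ v ∧ w ≠ v₁
    · by_cases h' : w' ≠ v ∧ w' ≠ v₁
      · simp only [dif_pos h, dif_pos h']
        exact hZ3 _ _ (fun he => hww (congrArg Subtype.val he))
      · simp only [dif_pos h, dif_neg h']
        by_cases h'' : w' = v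
        · rw [if_pos h'']; exact hZS _
        · rw [if_neg h'', Finset.disjoint_singleton_right]; exact hZb _
    · by_cases h' : w' ≠ v ∧ w' ≠ v₁
      · simp only [dif_neg h, dif_pos h']
        by_cases h'' : w = v
        · rw [if_pos h'']; exact (hZS _).symm
        · rw [if_neg h'', Finset.disjoint_singleton_left]; exact hZb _
      · simp only [dif_neg h, dif_neg h']
        by_cases h'' : w = v
        · have h3 : w' ≠ v := fun he => hww (by rw [h'', he])
          rw [if_pos h'', if_neg h3, Finset.disjoint_singleton_right]; exact hb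
        · have h3 : w' = v := by
            have h4 : w = v₁ := by tauto
            by_contra h5
            have h6 : w' = v₁ := by tauto
            exact hww (by rw [h4, h6])
          rw [if_neg h'', if_pos h3, Finset.disjoint_singleton_left]; exact hb
  · have h : ¬ (v ≠ v ∧ v ≠ v₁) := by tauto
    simp only [dif_neg h, if_true]
  · have h : ¬ (v₁ ≠ v ∧ v₁ ≠ v₁) := by tauto
    simp only [dif_neg h, if_neg hv.symm]

/-- exchange in a column -/
lemma col_exchange (hD : TaskD) (v v₁ : Fin n) (hv : v ≠ v₁) (h1 : (t.N v₁).card = 1)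
    (S : Finset (Fin (2 * n - 1))) (hS : S.card = (t.N v).card) (a b : Fin (2 * n - 1))
    (ha : a ∈ S) (hb : b ∉ S) :
    (sg S - sg (pm (Equiv.swap a b) S)) - (sg {a} - sg {b}) ∈ EE t := by
  classical
  obtain ⟨c, hc1, hc2⟩ := exists_col t hD v v₁ hv h1 S hS b hb
  have hother : ∀ w, w ≠ v → w ≠ v₁ → (pc t (Equiv.swap a b) c).1 w = c.1 w := by
    intro w hwv hwv1
    refine pm_swap_of_notMem a b _ ?_ ?_
    · intro h
      have := c.2.2 w v hwv
      rw [hc1] at this
      exact Finset.disjoint_left.1 this h ha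
    · intro h
      have := c.2.2 w v₁ hwv1
      rw [hc2] at this
      exact Finset.disjoint_left.1 this h (mem_singleton_self b)
  have hv' : (pc t (Equiv.swap a b) c).1 v = pm (Equiv.swap a b) S := by
    change pm (Equiv.swap a b) (c.1 v) = _
    rw [hc1]
  have hv1' : (pc t (Equiv.swap a b) c).1 v₁ = {a} := by
    change pm (Equiv.swap a b) (c.1 v₁) = _
    rw [hc2]
    ext x
    rw [mem_pm, Equiv.symm_swap, mem_singleton, mem_singleton]
    constructor
    · intro h
      have := congrArg (Equiv.swap a b) h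
      rwa [Equiv.swap_apply_self, Equiv.swap_apply_right] at this
    · rintro rfl; simp
  have hmem := qq_mem t c (pc t (Equiv.swap a b) c)
  have hval : qq t c - qq t (pc t (Equiv.swap a b) c) =
      (sg S - sg (pm (Equiv.swap a b) S)) - (sg {a} - sg {b}) := by
    unfold qq
    rw [← Finset.sum_sub_distrib, ← Finset.add_sum_erase _ _ (mem_univ v),
      ← Finset.add_sum_erase _ _ (mem_erase.2 ⟨hv.symm, mem_univ v₁⟩)]
    rw [Finset.sum_eq_zero, hv', hv1', hc1, hc2]
    · abel
    · intro w hw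
      rw [mem_erase, mem_erase] at hw
      rw [hother w hw.2.1 hw.1, sub_self]
  rwa [hval] at hmem

lemma exists_emb (hn : 2 ≤ n) (u : Fin n) (a b : Fin (2 * n - 1)) (hab : a ≠ b) :
    ∃ φ : Fin n ↪ Fin (2 * n - 1), φ u = a ∧ ∀ w, φ w ≠ b := by
  classical
  have hc : Fintype.card (Fin n) ≤ Fintype.card {x : Fin (2 * n - 1) // x ≠ b} := by
    rw [Fintype.card_subtype_compl, Fintype.card_fin, Fintype.card_fin]
    simp
    omega
  obtain ⟨ψ⟩ := Function.Embedding.nonempty_of_card_le hc
  let ψ' : Fin n ↪ Fin (2 * n - 1) := ψ.trans (Function.Embedding.subtype _)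
  have hψ : ∀ w, ψ' w ≠ b := fun w => (ψ w).2
  refine ⟨ψ'.trans (Equiv.swap (ψ' u) a).toEmbedding, ?_, ?_⟩
  · simp
  · intro w h
    simp only [Function.Embedding.trans_apply, Equiv.coe_toEmbedding] at h
    have h2 := congrArg (Equiv.swap (ψ' u) a) h
    rw [Equiv.swap_apply_self, Equiv.swap_apply_of_ne_of_ne (hψ u).symm hab.symm] at h2
    exact hψ w h2

/-- moving a one-element set -/
lemma leaf_mem (hD : TaskD) (hn : 2 ≤ n) (a b : Fin (2 * n - 1)) (hab : a ≠ b) :
    sg {a} - sg {b} ∈ EE t := by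
  classical
  obtain ⟨u, v, huv, hu⟩ := exists_leafU t (by omega)
  obtain ⟨v₁, hv₁⟩ := exists_leafV t (by omega)
  obtain ⟨φ, hφ, hφb⟩ := exists_emb hn u a b hab
  set S := (t.N v).map φ with hS
  have haS : a ∈ S := by rw [hS, mem_map]; exact ⟨u, huv, hφ⟩
  have hbS : b ∉ S := by
    rw [hS, mem_map]
    rintro ⟨w, _, hw⟩
    exact hφb w hw
  have hScard : S.card = (t.N v).card := card_map _
  have hmem := tt_mem t φ (φ.trans (Equiv.swap a b).toEmbedding)
  have hval : tt t φ - tt t (φ.trans (Equiv.swap a b).toEmbedding) =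
      sg S - sg (pm (Equiv.swap a b) S) := by
    unfold tt
    rw [← Finset.sum_sub_distrib, ← Finset.add_sum_erase _ _ (mem_univ v)]
    rw [Finset.sum_eq_zero, pm_map, add_zero]
    intro w hw
    rw [pm_map, pm_swap_of_notMem a b, sub_self]
    · intro h
      rw [mem_map] at h
      obtain ⟨z, hz, hza⟩ := h
      have : z = u := φ.injective (by rw [hza, hφ])
      subst this
      exact (mem_erase.1 hw).1 (hu w hz)
    · intro h
      rw [mem_map] at h
      obtain ⟨z, _, hz⟩ := h
      exact hφb z hz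
  rw [hval] at hmem
  by_cases h1 : (t.N v).card = 1
  · -- `S = {a}`
    have hSa : S = {a} := by
      obtain ⟨x, hx⟩ := Finset.card_eq_one.1 (hScard.trans h1)
      rw [hx] at haS ⊢
      rw [mem_singleton.1 haS]
    have hpm : pm (Equiv.swap a b) ({a} : Finset (Fin (2 * n - 1))) = {b} := by
      unfold pm
      rw [map_singleton]
      simp
    rw [hSa, hpm] at hmem
    exact hmem
  · have hvv : v ≠ v₁ := fun h => h1 (h ▸ hv₁)
    have h2 := col_exchange t hD v v₁ hvv hv₁ S hScard a b haS hbS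
    have h3 := (EE t).sub_mem hmem h2
    have h4 : (sg S - sg (pm (Equiv.swap a b) S)) -
        ((sg S - sg (pm (Equiv.swap a b) S)) - (sg {a} - sg {b})) =
        (sg {a} - sg {b} : Finset (Fin (2 * n - 1)) → ℤ) := by abel
    rwa [h4] at h3

/-- moving one element of a set -/
lemma swap_mem (hD : TaskD) (hn : 2 ≤ n) (v : Fin n) (S : Finset (Fin (2 * n - 1)))
    (hS : S.card = (t.N v).card) (a b : Fin (2 * n - 1)) (ha : a ∈ S) (hb : b ∉ S) :
    sg S - sg (pm (Equiv.swap a b) S) ∈ EE t := by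
  classical
  have hab : a ≠ b := fun h => hb (h ▸ ha)
  have hleaf := leaf_mem t hD hn a b hab
  obtain ⟨v₁, hv₁⟩ := exists_leafV t (by omega)
  by_cases h1 : (t.N v).card = 1
  · have hSa : S = {a} := by
      obtain ⟨x, hx⟩ := Finset.card_eq_one.1 (hS.trans h1)
      rw [hx] at ha ⊢
      rw [mem_singleton.1 ha]
    have hpm : pm (Equiv.swap a b) ({a} : Finset (Fin (2 * n - 1))) = {b} := by
      unfold pm
      rw [map_singleton]
      simp
    rw [hSa, hpm]
    exact hleaf
  · have hvv : v ≠ v₁ := fun h => h1 (h ▸ hv₁)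
    have h2 := col_exchange t hD v v₁ hvv hv₁ S hS a b ha hb
    have h3 := (EE t).add_mem h2 hleaf
    have h4 : ((sg S - sg (pm (Equiv.swap a b) S)) - (sg {a} - sg {b})) + (sg {a} - sg {b}) =
        (sg S - sg (pm (Equiv.swap a b) S) : Finset (Fin (2 * n - 1)) → ℤ) := by abel
    rwa [h4] at h3

/-- any two sets of the same size -/
lemma same_card_mem (hD : TaskD) (hn : 2 ≤ n) (v : Fin n) :
    ∀ (m : ℕ) (S S' : Finset (Fin (2 * n - 1))), (S \ S').card = m →
      S.card = (t.N v).card → S'.card = (t.N v).card → sg S - sg S' ∈ EE t := by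
  classical
  intro m
  induction m with
  | zero =>
    intro S S' h hS hS'
    have : S ⊆ S' := by
      rw [← Finset.sdiff_eq_empty_iff_subset]; exact Finset.card_eq_zero.1 h
    have : S = S' := Finset.eq_of_subset_of_card_le this (by rw [hS, hS'])
    rw [this, sub_self]
    exact (EE t).zero_mem
  | succ m ih =>
    intro S S' h hS hS'
    obtain ⟨a, ha⟩ : (S \ S').Nonempty := Finset.card_pos.1 (by omega)
    have hcard : (S' \ S).card = (S \ S').card := by
      have h1 := Finset.card_sdiff_add_card_inter S S'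
      have h2 := Finset.card_sdiff_add_card_inter S' S
      rw [Finset.inter_comm] at h2
      omega
    obtain ⟨b, hb⟩ : (S' \ S).Nonempty := Finset.card_pos.1 (by omega)
    rw [mem_sdiff] at ha hb
    have hab : a ≠ b := fun he => ha.2 (he ▸ hb.1)
    have h1 := swap_mem t hD hn v S hS a b ha.1 hb.2
    have h2 : (pm (Equiv.swap a b) S \ S').card = m := by
      have : pm (Equiv.swap a b) S \ S' = (S \ S').erase a := by
        ext x
        rw [mem_sdiff, mem_pm, Equiv.symm_swap, mem_erase, mem_sdiff]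
        by_cases hxa : x = a
        · subst hxa; simp [hb.2]
        by_cases hxb : x = b
        · subst hxb; simp [hb.1, hb.2]
        rw [Equiv.swap_apply_of_ne_of_ne hxa hxb]
        tauto
      rw [this, Finset.card_erase_of_mem (mem_sdiff.2 ha), h]
      rfl
    have h3 := ih (pm (Equiv.swap a b) S) S' h2 (by rw [card_pm, hS]) hS'
    have h4 := (EE t).add_mem h1 h3
    have h5 : (sg S - sg (pm (Equiv.swap a b) S)) + (sg (pm (Equiv.swap a b) S) - sg S') =
        (sg S - sg S' : Finset (Fin (2 * n - 1)) → ℤ) := by abel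
    rwa [h5] at h4

end

end Cnt

end H586TP
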