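import Pool.Agent.H586R3.TP.Count

/-! COUNT, second part (helper586). -/

set_option autoImplicit false
set_option linter.unusedSectionVars false
set_option linter.unusedVariables false

open Finset

namespace H586TP

namespace Cnt

section

variable {n : ℕ} (t : Ty n)

/-- sum over all permutations of the images of a set -/
noncomputable def PP {n : ℕ} (S : Finset (Fin (2 * n - 1))) : Finset (Fin (2 * n - 1)) → ℤ :=
  ∑ σ : Equiv.Perm (Fin (2 * n - 1)), sg (pm σ S)

lemma PP_eq {n : ℕ} (S S' : Finset (Fin (2 * n - 1))) (h : S.card = S'.card) : PP S = PP S' := by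
  classical
  let e : {x // x ∈ S} ≃ {x // x ∈ S'} := Finset.equivOfCardEq h
  let π : Equiv.Perm (Fin (2 * n - 1)) := e.extendSubtype
  have hπ : pm π S = S' := by
    apply Finset.eq_of_subset_of_card_le
    · intro x hx
      unfold pm at hx
      rw [mem_map] at hx
      obtain ⟨y, hy, rfl⟩ := hx
      have := e.extendSubtype_mem y hy
      exact this
    · rw [card_pm, h]
  unfold PP
  rw [← hπ]
  have hcomp : ∀ σ : Equiv.Perm (Fin (2 * n - 1)), pm σ (pm π S) = pm (σ * π) S := by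
    intro σ
    unfold pm
    rw [Finset.map_map]
    rfl
  simp_rw [hcomp]
  exact (Equiv.sum_comp (Equiv.mulRight π) (fun σ => sg (pm σ S))).symm

/-- sum of the images of a tree -/
lemma sum_tt (φ : Fin n ↪ Fin (2 * n - 1)) :
    ∑ σ : Equiv.Perm (Fin (2 * n - 1)), tt t (φ.trans σ.toEmbedding) =
      ∑ v, PP ((t.N v).map φ) := by
  unfold tt PP
  rw [Finset.sum_comm]
  refine Finset.sum_congr rfl fun v _ => Finset.sum_congr rfl fun σ _ => ?_
  rw [pm_map]

lemma sum_qq (c : Col t) :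
    ∑ σ : Equiv.Perm (Fin (2 * n - 1)), qq t (pc t σ c) = ∑ v, PP (c.1 v) := by
  unfold qq PP
  rw [Finset.sum_comm]
  rfl

/-- permuting embeddings -/
def permE (σ : Equiv.Perm (Fin (2 * n - 1))) :
    (Fin n ↪ Fin (2 * n - 1)) ≃ (Fin n ↪ Fin (2 * n - 1)) where
  toFun φ := φ.trans σ.toEmbedding
  invFun φ := φ.trans σ.symm.toEmbedding
  left_inv φ := by ext x; simp
  right_inv φ := by ext x; simp

/-- permuting columns -/
def permC (σ : Equiv.Perm (Fin (2 * n - 1))) : Col t ≃ Col t where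
  toFun c := pc t σ c
  invFun c := pc t σ.symm c
  left_inv c := by
    apply Subtype.ext
    funext v
    change pm σ.symm (pm σ (c.1 v)) = c.1 v
    ext x; rw [mem_pm, mem_pm]; simp
  right_inv c := by
    apply Subtype.ext
    funext v
    change pm σ (pm σ.symm (c.1 v)) = c.1 v
    ext x; rw [mem_pm, mem_pm]; simp

/-- the uniform solution -/
lemma uniform (φ₀ : Fin n ↪ Fin (2 * n - 1)) (c₀ : Col t) :
    (Fintype.card (Col t) : ℤ) • ∑ φ, tt t φ =
      (Fintype.card (Fin n ↪ Fin (2 * n - 1)) : ℤ) • ∑ c, qq t c := by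
  classical
  set U := ∑ v, PP ((t.N v).map φ₀) with hU
  have hUt : ∀ φ : Fin n ↪ Fin (2 * n - 1), ∑ v, PP ((t.N v).map φ) = U := fun φ => by
    rw [hU]
    refine Finset.sum_congr rfl fun v _ => PP_eq _ _ ?_
    rw [card_map, card_map]
  have hUc : ∀ c : Col t, ∑ v, PP (c.1 v) = U := fun c => by
    rw [hU]
    refine Finset.sum_congr rfl fun v _ => PP_eq _ _ ?_
    rw [card_map, c.2.1 v]
  set P : ℤ := (Fintype.card (Equiv.Perm (Fin (2 * n - 1))) : ℤ) with hP
  have hP0 : P ≠ 0 := by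
    rw [hP]; exact_mod_cast Fintype.card_ne_zero
  have h1 : P • ∑ φ, tt t φ = (Fintype.card (Fin n ↪ Fin (2 * n - 1)) : ℤ) • U := by
    have : ∑ σ : Equiv.Perm (Fin (2 * n - 1)), ∑ φ : Fin n ↪ Fin (2 * n - 1),
        tt t (φ.trans σ.toEmbedding) = P • ∑ φ, tt t φ := by
      have h : ∀ σ : Equiv.Perm (Fin (2 * n - 1)), ∑ φ : Fin n ↪ Fin (2 * n - 1),
          tt t (φ.trans σ.toEmbedding) = ∑ φ, tt t φ := fun σ =>
        Equiv.sum_comp (permE σ) (fun φ => tt t φ)
      rw [Finset.sum_congr rfl fun σ _ => h σ, Finset.sum_const, Finset.card_univ, hP]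
      simp
    rw [← this, Finset.sum_comm]
    have h' : ∀ φ : Fin n ↪ Fin (2 * n - 1), ∑ σ : Equiv.Perm (Fin (2 * n - 1)),
        tt t (φ.trans σ.toEmbedding) = U := fun φ => by rw [sum_tt, hUt]
    rw [Finset.sum_congr rfl fun φ _ => h' φ, Finset.sum_const, Finset.card_univ]
    simp
  have h2 : P • ∑ c, qq t c = (Fintype.card (Col t) : ℤ) • U := by
    have : ∑ σ : Equiv.Perm (Fin (2 * n - 1)), ∑ c : Col t, qq t (pc t σ c) =
        P • ∑ c, qq t c := by
      have h : ∀ σ : Equiv.Perm (Fin (2 * n - 1)), ∑ c : Col t, qq t (pc t σ c) =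
          ∑ c, qq t c := fun σ => Equiv.sum_comp (permC t σ) (fun c => qq t c)
      rw [Finset.sum_congr rfl fun σ _ => h σ, Finset.sum_const, Finset.card_univ, hP]
      simp
    rw [← this, Finset.sum_comm]
    have h' : ∀ c : Col t, ∑ σ : Equiv.Perm (Fin (2 * n - 1)), qq t (pc t σ c) = U :=
      fun c => by rw [sum_qq, hUc]
    rw [Finset.sum_congr rfl fun c _ => h' c, Finset.sum_const, Finset.card_univ]
    simp
  have h3 : P • ((Fintype.card (Col t) : ℤ) • ∑ φ, tt t φ) =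
      P • ((Fintype.card (Fin n ↪ Fin (2 * n - 1)) : ℤ) • ∑ c, qq t c) := by
    rw [smul_comm, h1, smul_comm P, h2, smul_comm]
  exact smul_right_injective _ hP0 h3

end

/-- values of `tt` -/
lemma tt_apply {n : ℕ} (t : Ty n) (φ : Fin n ↪ Fin (2 * n - 1)) (S : Finset (Fin (2 * n - 1)))
    [DecidablePred fun v => (t.N v).map φ = S] :
    tt t φ S = ((univ.filter (fun v => (t.N v).map φ = S)).card : ℤ) := by
  classical
  unfold tt sg
  rw [Finset.sum_apply, Finset.card_filter, Nat.cast_sum]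
  refine Finset.sum_congr rfl fun v _ => ?_
  rw [Pi.single_apply]
  by_cases h : (t.N v).map φ = S
  · simp [h]
  · simp [h, Ne.symm h]

lemma qq_apply {n : ℕ} (t : Ty n) (c : Col t) (S : Finset (Fin (2 * n - 1)))
    [DecidablePred fun v => c.1 v = S] :
    qq t c S = ((univ.filter (fun v => c.1 v = S)).card : ℤ) := by
  classical
  unfold qq sg
  rw [Finset.sum_apply, Finset.card_filter, Nat.cast_sum]
  refine Finset.sum_congr rfl fun v _ => ?_
  rw [Pi.single_apply]
  by_cases h : c.1 v = S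
  · simp [h]
  · simp [h, Ne.symm h]

lemma zz_apply {n r : ℕ} (Z : Fin r → Fin n → Finset (Fin (2 * n - 1)))
    (S : Finset (Fin (2 * n - 1))) [DecidablePred fun p : Fin r × Fin n => Z p.1 p.2 = S] :
    (∑ p : Fin r × Fin n, sg (Z p.1 p.2)) S =
      ((univ.filter (fun p : Fin r × Fin n => Z p.1 p.2 = S)).card : ℤ) := by
  classical
  unfold sg
  rw [Finset.sum_apply, Finset.card_filter, Nat.cast_sum]
  refine Finset.sum_congr rfl fun v _ => ?_
  rw [Pi.single_apply]
  by_cases h : Z v.1 v.2 = S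
  · simp [h]
  · simp [h, Ne.symm h]

end Cnt

open Cnt

theorem count (hD : TaskD) : Count := by
  classical
  intro n hn t r Z hZ
  -- base embedding and column
  let φ₀ : Fin n ↪ Fin (2 * n - 1) := (Fin.castLEEmb (by omega))
  obtain ⟨c₀⟩ : Nonempty (Col t) := by
    obtain ⟨W, hW1, hW2, hW3⟩ := hD (Fin (2 * n - 1)) (Fin n) univ (fun v => (t.N v).card)
      (by rw [t.sum]; simp)
    exact ⟨⟨W, hW1, hW3⟩⟩
  have hsame : ∀ (v : Fin n) (S S' : Finset (Fin (2 * n - 1))), S.card = (t.N v).card →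
      S'.card = (t.N v).card → (sg S - sg S' : Finset (Fin (2 * n - 1)) → ℤ) ∈ EE t :=
    fun v S S' h h' => same_card_mem t hD hn v _ S S' rfl h h'
  -- tree minus column
  have hG : tt t φ₀ - qq t c₀ ∈ EE t := by
    unfold tt qq
    rw [← Finset.sum_sub_distrib]
    exact (EE t).sum_mem fun v _ => hsame v _ _ (card_map _) (c₀.2.1 v)
  have hH : (∑ p : Fin r × Fin n, sg (Z p.1 p.2)) - (r : ℤ) • qq t c₀ ∈ EE t := by
    have : (∑ p : Fin r × Fin n, sg (Z p.1 p.2)) - (r : ℤ) • qq t c₀ =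
        ∑ p : Fin r × Fin n, (sg (Z p.1 p.2) - sg (c₀.1 p.2)) := by
      rw [Finset.sum_sub_distrib]
      congr 1
      rw [Fintype.sum_prod_type]
      simp only [Finset.sum_const, Finset.card_univ, Fintype.card_fin]
      unfold qq
      simp
    rw [this]
    exact (EE t).sum_mem fun p _ => hsame p.2 _ _ (hZ p.1 p.2) (c₀.2.1 p.2)
  obtain ⟨y1, x1, hy1, hx1, h1⟩ := explicit t _ hG
  obtain ⟨y2, x2, hy2, hx2, h2⟩ := explicit t _ hH
  -- constants
  set F : ℤ := (Fintype.card (Fin n ↪ Fin (2 * n - 1)) : ℤ) with hF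
  set C : ℤ := (Fintype.card (Col t) : ℤ) with hC
  have hF1 : 1 ≤ F := by
    rw [hF]; exact_mod_cast Fintype.card_pos_iff.2 ⟨φ₀⟩
  have hC1 : 1 ≤ C := by
    rw [hC]; exact_mod_cast Fintype.card_pos_iff.2 ⟨c₀⟩
  obtain ⟨b, hb0, hby1, hby2, hbx1, hbx2⟩ : ∃ b : ℤ, 0 ≤ b ∧ (∀ φ, |y1 φ| ≤ b) ∧
      (∀ φ, |y2 φ| ≤ b) ∧ (∀ c, |x1 c| ≤ b) ∧ ∀ c, |x2 c| ≤ b := by
    refine ⟨∑ φ, |y1 φ| + ∑ φ, |y2 φ| + ∑ c, |x1 c| + ∑ c, |x2 c|, ?_, ?_, ?_, ?_, ?_⟩
    · positivity
    all_goals
      intro z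
      have e1 : 0 ≤ ∑ φ, |y1 φ| := Finset.sum_nonneg fun _ _ => abs_nonneg _
      have e2 : 0 ≤ ∑ φ, |y2 φ| := Finset.sum_nonneg fun _ _ => abs_nonneg _
      have e3 : 0 ≤ ∑ c, |x1 c| := Finset.sum_nonneg fun _ _ => abs_nonneg _
      have e4 : 0 ≤ ∑ c, |x2 c| := Finset.sum_nonneg fun _ _ => abs_nonneg _
    · have := Finset.single_le_sum (f := fun φ => |y1 φ|) (fun _ _ => abs_nonneg _) (mem_univ z)
      linarith
    · have := Finset.single_le_sum (f := fun φ => |y2 φ|) (fun _ _ => abs_nonneg _) (mem_univ z)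
      linarith
    · have := Finset.single_le_sum (f := fun φ => |x1 φ|) (fun _ _ => abs_nonneg _) (mem_univ z)
      linarith
    · have := Finset.single_le_sum (f := fun φ => |x2 φ|) (fun _ _ => abs_nonneg _) (mem_univ z)
      linarith
  set M : ℤ := F * C with hM
  have hM1 : 1 ≤ M := by rw [hM]; nlinarith
  set R₀ : ℤ := 2 * n + M * (b + 1) + b + r with hR₀
  refine ⟨(M * (R₀ + 1)).toNat, fun k hk => ?_⟩
  have hk' : M * (R₀ + 1) ≤ (k : ℤ) := by
    have := Int.toNat_le.1 hk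
    exact this
  set R : ℤ := (k : ℤ) / M with hR
  set s : ℤ := (k : ℤ) % M with hs
  have hs0 : 0 ≤ s := Int.emod_nonneg _ (by omega)
  have hsM : s < M := Int.emod_lt_of_pos _ (by omega)
  have hks : M * R + s = k := Int.mul_ediv_add_emod _ _
  have hRR : R₀ ≤ R := by
    by_contra hcon
    push Not at hcon
    have : M * R + s < M * (R₀ + 1) := by nlinarith
    omega
  have hMb : 0 ≤ M * (b + 1) := mul_nonneg (by linarith) (by linarith)
  have hnn0 : (0 : ℤ) ≤ n := Int.natCast_nonneg n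
  have hrr0 : (0 : ℤ) ≤ r := Int.natCast_nonneg r
  have hR0 : 0 ≤ R := by linarith
  -- signed solution
  let yk : (Fin n ↪ Fin (2 * n - 1)) → ℤ := fun φ =>
    R * C + s * ((if φ = φ₀ then 1 else 0) - y1 φ) + y2 φ
  let xk : Col t → ℤ := fun c =>
    R * F + s * ((if c = c₀ then 1 else 0) + x1 c) - x2 c - r * (if c = c₀ then 1 else 0)
  have hyk : ∀ φ, (2 * n : ℤ) ≤ yk φ := by
    intro φ
    obtain ⟨e1, e1'⟩ := abs_le.1 (hby1 φ)
    obtain ⟨e2, e2'⟩ := abs_le.1 (hby2 φ)
    have e3 : R ≤ R * C := by nlinarith [mul_le_mul_of_nonneg_left hC1 hR0]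
    have e4 : -(M * (b + 1)) ≤ s * ((if φ = φ₀ then 1 else 0) - y1 φ) := by
      have e5 : -(b + 1) ≤ (if φ = φ₀ then (1 : ℤ) else 0) - y1 φ := by
        split_ifs <;> linarith
      nlinarith
    simp only [yk]
    linarith
  have hxk : ∀ c, 0 ≤ xk c := by
    intro c
    obtain ⟨e1, e1'⟩ := abs_le.1 (hbx1 c)
    obtain ⟨e2, e2'⟩ := abs_le.1 (hbx2 c)
    have e3 : R ≤ R * F := by nlinarith [mul_le_mul_of_nonneg_left hF1 hR0]
    have e4 : -(M * (b + 1)) ≤ s * ((if c = c₀ then 1 else 0) + x1 c) := by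
      have e5 : -(b + 1) ≤ (if c = c₀ then (1 : ℤ) else 0) + x1 c := by
        split_ifs <;> linarith
      nlinarith
    have e6 : (r : ℤ) * (if c = c₀ then 1 else 0) ≤ r := by
      split_ifs <;> simp
    simp only [xk]
    linarith
  have hsumφ : ∑ φ : Fin n ↪ Fin (2 * n - 1), (if φ = φ₀ then (1 : ℤ) else 0) = 1 := by simp
  have hsumc : ∑ c : Col t, (if c = c₀ then (1 : ℤ) else 0) = 1 := by simp
  have hytot : ∑ φ, yk φ = k := by
    simp only [yk, Finset.sum_add_distrib, ← Finset.mul_sum, Finset.sum_sub_distrib, hsumφ, hy1,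
      hy2, Finset.sum_const, Finset.card_univ, nsmul_eq_mul]
    rw [← hF, ← hks, hM]
    ring
  have hxtot : ∑ c, xk c = k - r := by
    simp only [xk, Finset.sum_add_distrib, ← Finset.mul_sum, Finset.sum_sub_distrib, hsumc, hx1,
      hx2, Finset.sum_const, Finset.card_univ, nsmul_eq_mul]
    rw [← hC, ← hks, hM]
    ring
  have hident : ∑ φ, yk φ • tt t φ = ∑ c, xk c • qq t c + ∑ p : Fin r × Fin n, sg (Z p.1 p.2) := by
    have huni := uniform t φ₀ c₀
    rw [← hF, ← hC] at huni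
    have hl : ∑ φ, yk φ • tt t φ = R • (C • ∑ φ, tt t φ) +
        s • (tt t φ₀ - ∑ φ, y1 φ • tt t φ) + ∑ φ, y2 φ • tt t φ := by
      simp only [yk, add_smul, sub_smul, mul_smul, Finset.sum_add_distrib,
        Finset.sum_sub_distrib, Finset.smul_sum, smul_sub]
      congr 2
      congr 1
      rw [← Finset.smul_sum]
      simp
    have hr : ∑ c, xk c • qq t c = R • (F • ∑ c, qq t c) +
        s • (qq t c₀ + ∑ c, x1 c • qq t c) - ∑ c, x2 c • qq t c - (r : ℤ) • qq t c₀ := by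
      simp only [xk, add_smul, sub_smul, mul_smul, Finset.sum_add_distrib,
        Finset.sum_sub_distrib, Finset.smul_sum, smul_add]
      congr 2
      · congr 2
        congr 1
        rw [← Finset.smul_sum]
        simp
      · rw [← Finset.smul_sum]
        simp
    rw [hl, hr, huni]
    have h1' : tt t φ₀ - ∑ φ, y1 φ • tt t φ = qq t c₀ + ∑ c, x1 c • qq t c := by
      have : tt t φ₀ = qq t c₀ + (∑ φ, y1 φ • tt t φ + ∑ c, x1 c • qq t c) := by
        rw [← h1]; abel
      rw [this]; abel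
    have h2' : ∑ φ, y2 φ • tt t φ = ∑ p : Fin r × Fin n, sg (Z p.1 p.2) - (r : ℤ) • qq t c₀ -
        ∑ c, x2 c • qq t c := by
      rw [h2]; abel
    rw [h1', h2']
    abel
  refine ⟨fun φ => (yk φ).toNat, fun c => (xk c).toNat, ?_, ?_, ?_, ?_⟩
  · intro φ
    have := hyk φ
    have h0 : (0 : ℤ) ≤ yk φ := by linarith [Int.natCast_nonneg n]
    zify
    rw [Int.toNat_of_nonneg h0]
    exact this
  · zify
    rw [← hytot]
    refine Finset.sum_congr rfl fun φ _ => ?_
    have := hyk φ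
    rw [Int.toNat_of_nonneg (by linarith [Int.natCast_nonneg n])]
  · zify
    have : ∑ c, ((xk c).toNat : ℤ) = k - r := by
      rw [← hxtot]
      exact Finset.sum_congr rfl fun c _ => Int.toNat_of_nonneg (hxk c)
    rw [this]; ring
  · intro S
    have hS := congrFun hident S
    rw [Pi.add_apply, Finset.sum_apply, Finset.sum_apply, zz_apply Z S] at hS
    zify
    have e1 : ∑ φ, ((yk φ).toNat : ℤ) * ((univ.filter (fun v => (t.N v).map φ = S)).card : ℤ) =
        ∑ φ, (yk φ • tt t φ) S := by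
      refine Finset.sum_congr rfl fun φ _ => ?_
      have := hyk φ
      rw [Int.toNat_of_nonneg (by linarith [Int.natCast_nonneg n]), Pi.smul_apply, tt_apply,
        smul_eq_mul]
    have e2 : ∑ c, ((xk c).toNat : ℤ) * ((univ.filter (fun v => c.1 v = S)).card : ℤ) =
        ∑ c, (xk c • qq t c) S := by
      refine Finset.sum_congr rfl fun c _ => ?_
      rw [Int.toNat_of_nonneg (hxk c), Pi.smul_apply, qq_apply, smul_eq_mul]
    rw [e1, e2, hS]

end H586TP
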