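import Pool.Agent.H586R3.TP.Stmts

set_option autoImplicit false

/-! Task G of project H586-TP: translation to graphs. -/

open Finset

namespace H586TP.TaskG853

open H586TP

theorem tree_data (n : ℕ) (hn : 1 ≤ n) {V : Type} [Fintype V] (G : SimpleGraph V)
    (h : BalTree n G) : ∃ (c : V → Bool) (a : V → Fin n) (t : Ty n),
      (∀ u v, G.Adj u v → c u ≠ c v) ∧ (∀ x y, c x = c y → a x = a y → x = y) ∧
      (∀ x y, c x = true → c y = false → G.Adj x y → a x ∈ t.N (a y)) := by
  classical
  obtain ⟨hT, c, hc, h1, h0⟩ := h
  have eU : {v // c v = true} ≃ Fin n := Finite.equivFinOfCardEq h1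
  have eV : {v // c v = false} ≃ Fin n := Finite.equivFinOfCardEq h0
  have hnt : Nontrivial V := by
    refine ⟨⟨(eU.symm ⟨0, hn⟩ : V), (eV.symm ⟨0, hn⟩ : V), ?_⟩⟩
    intro heq
    have e1 := (eU.symm ⟨0, hn⟩).2
    have e2 := (eV.symm ⟨0, hn⟩).2
    rw [heq, e2] at e1
    exact Bool.false_ne_true e1
  have hnb : ∀ v : V, ∃ w, G.Adj v w := by
    intro v
    have := hT.connected.preconnected.degree_pos_of_nontrivial v
    exact (G.degree_pos_iff_exists_adj v).1 this
  have hct : ∀ u v, G.Adj u v → c v = false → c u = true := by
    intro u v huv hv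
    have := hc u v huv
    rw [hv] at this
    simpa using this
  have hcf : ∀ u v, G.Adj u v → c v = true → c u = false := by
    intro u v huv hv
    have := hc u v huv
    rw [hv] at this
    simpa using this
  let a : V → Fin n := fun x => if hx : c x = true then eU ⟨x, hx⟩ else
    eV ⟨x, by simpa using hx⟩
  have ha1 : ∀ x (hx : c x = true), a x = eU ⟨x, hx⟩ := fun x hx => by
    simp only [a]
    rw [dif_pos hx]
  have ha0 : ∀ x (hx : c x = false), a x = eV ⟨x, hx⟩ := fun x hx => by
    simp only [a]
    rw [dif_neg (by rw [hx]; exact Bool.false_ne_true)]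
  let N : Fin n → Finset (Fin n) := fun v =>
    univ.filter fun u => G.Adj (eU.symm u : V) (eV.symm v : V)
  have hN : ∀ u v, u ∈ N v ↔ G.Adj (eU.symm u : V) (eV.symm v : V) := fun u v => by
    simp only [N, mem_filter, mem_univ, true_and]
  have hne : ∀ v, (N v).Nonempty := by
    intro v
    obtain ⟨w, hw⟩ := hnb (eV.symm v : V)
    have hwt : c w = true := hct w _ hw.symm (eV.symm v).2
    refine ⟨eU ⟨w, hwt⟩, ?_⟩
    rw [hN, Equiv.symm_apply_apply]
    exact hw.symm
  have hcov : ∀ u, ∃ v, u ∈ N v := by
    intro u
    obtain ⟨w, hw⟩ := hnb (eU.symm u : V)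
    have hwf : c w = false := hcf w _ hw.symm (eU.symm u).2
    refine ⟨eV ⟨w, hwf⟩, ?_⟩
    rw [hN, Equiv.symm_apply_apply]
    exact hw
  have hdeg : ∀ v, (N v).card = G.degree (eV.symm v : V) := by
    intro v
    rw [← SimpleGraph.card_neighborFinset_eq_degree]
    refine Finset.card_bij (fun u _ => (eU.symm u : V)) ?_ ?_ ?_
    · intro u hu
      rw [SimpleGraph.mem_neighborFinset]
      exact ((hN u v).1 hu).symm
    · intro u _ u' _ huu
      exact eU.symm.injective (Subtype.ext huu)
    · intro x hx
      rw [SimpleGraph.mem_neighborFinset] at hx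
      have hxt : c x = true := hct x _ hx.symm (eV.symm v).2
      refine ⟨eU ⟨x, hxt⟩, ?_, ?_⟩
      · rw [hN, Equiv.symm_apply_apply]
        exact hx.symm
      · rw [Equiv.symm_apply_apply]
  have hbip : G.IsBipartiteWith ((univ.filter fun x => c x = false : Finset V) : Set V)
      ((univ.filter fun x => c x = true : Finset V) : Set V) := by
    refine ⟨?_, ?_⟩
    · rw [Set.disjoint_left]
      intro x hx hx'
      simp only [coe_filter, mem_univ, true_and, Set.mem_ofPred_eq] at hx hx'
      rw [hx] at hx'
      exact Bool.false_ne_true hx'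
    · intro x y hxy
      simp only [coe_filter, mem_univ, true_and, Set.mem_ofPred_eq]
      by_cases hy : c y = true
      · left
        exact ⟨hcf x y hxy hy, hy⟩
      · right
        have hy' : c y = false := by simpa using hy
        exact ⟨hct x y hxy hy', hy'⟩
  have hsum : ∑ v, (N v).card = 2 * n - 1 := by
    have e1 : ∑ v, (N v).card = G.edgeFinset.card := by
      rw [← SimpleGraph.isBipartiteWith_sum_degrees_eq_card_edges hbip]
      have e2 : ∑ v, (N v).card = ∑ v : Fin n, G.degree (eV.symm v : V) :=
        Finset.sum_congr rfl fun v _ => hdeg v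
      rw [e2, Equiv.sum_comp eV.symm (fun y : {v // c v = false} => G.degree (y : V))]
      refine (Finset.sum_subtype (univ.filter fun x => c x = false) ?_ (fun x => G.degree x)).symm
      intro x
      simp
    have e3 : G.edgeFinset.card + 1 = Fintype.card V := hT.card_edgeFinset
    have e4 : Fintype.card V = n + n := by
      have e5 : Fintype.card {v // c v = true} = n := by
        rw [← Nat.card_eq_fintype_card]; exact h1
      have e6 : Fintype.card {v // ¬ c v = true} = n := by
        rw [← h0, ← Nat.card_eq_fintype_card]
        refine Nat.card_congr (Equiv.subtypeEquivRight fun x => ?_)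
        simp
      have e7 := Fintype.card_subtype_compl (fun v : V => c v = true)
      have e8 : Fintype.card {v // c v = true} ≤ Fintype.card V := Fintype.card_subtype_le _
      omega
    rw [e1]
    omega
  refine ⟨c, a, ⟨N, hne, hsum, hcov⟩, hc, ?_, ?_⟩
  · intro x y hxy haxy
    by_cases hx : c x = true
    · have hy : c y = true := by rw [← hxy]; exact hx
      rw [ha1 x hx, ha1 y hy] at haxy
      exact congrArg Subtype.val (eU.injective haxy)
    · have hx' : c x = false := by simpa using hx
      have hy : c y = false := by rw [← hxy]; exact hx'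
      rw [ha0 x hx', ha0 y hy] at haxy
      exact congrArg Subtype.val (eV.injective haxy)
  · intro x y hx hy hxy
    show a x ∈ N (a y)
    rw [hN, ha1 x hx, ha0 y hy, Equiv.symm_apply_apply, Equiv.symm_apply_apply]
    exact hxy

theorem taskG : H586TP.TaskG := by
  classical
  intro hmain n hn
  obtain ⟨k₀, hk₀⟩ := hmain n hn
  refine ⟨k₀, fun k hk => ?_⟩
  intro V _ G hG
  choose c a t hc ha hadj using fun i => tree_data n hn (G i) (hG i)
  obtain ⟨φ, β, hpack⟩ := hk₀ k hk t
  set f : ∀ i, V i → Fin (2 * n - 1) ⊕ Fin k := fun i x =>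
    if c i x = true then Sum.inl (φ i (a i x)) else Sum.inr (β i (a i x)) with hf
  have hft : ∀ i x, c i x = true → f i x = Sum.inl (φ i (a i x)) := fun i x hx => by
    simp only [hf]
    rw [if_pos hx]
  have hff : ∀ i x, c i x = false → f i x = Sum.inr (β i (a i x)) := fun i x hx => by
    simp only [hf]
    rw [if_neg (by rw [hx]; exact Bool.false_ne_true)]
  -- the ends of an edge
  have hedge : ∀ i u v, (G i).Adj u v → ∃ x y, c i x = true ∧ c i y = false ∧ (G i).Adj x y ∧
      s(f i u, f i v) = s(Sum.inl (φ i (a i x)), Sum.inr (β i (a i y))) := by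
    intro i u v huv
    have hne := hc i u v huv
    by_cases hu : c i u = true
    · have hv : c i v = false := by
        rw [hu] at hne
        simpa using hne.symm
      exact ⟨u, v, hu, hv, huv, by rw [hft i u hu, hff i v hv]⟩
    · have hu' : c i u = false := by simpa using hu
      have hv : c i v = true := by
        rw [hu'] at hne
        simpa using hne.symm
      exact ⟨v, u, hv, hu', huv.symm, by rw [hft i v hv, hff i u hu', Sym2.eq_swap]⟩
  refine ⟨f, ?_, ?_, ?_⟩
  · intro i x y hxy
    by_cases hx : c i x = true
    · by_cases hy : c i y = true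
      · rw [hft i x hx, hft i y hy] at hxy
        exact ha i x y (hx.trans hy.symm) ((φ i).injective (Sum.inl_injective hxy))
      · have hy' : c i y = false := by simpa using hy
        rw [hft i x hx, hff i y hy'] at hxy
        exact absurd hxy (by simp)
    · have hx' : c i x = false := by simpa using hx
      by_cases hy : c i y = true
      · rw [hff i x hx', hft i y hy] at hxy
        exact absurd hxy (by simp)
      · have hy' : c i y = false := by simpa using hy
        rw [hff i x hx', hff i y hy'] at hxy
        exact ha i x y (hx'.trans hy'.symm) ((β i).injective (Sum.inr_injective hxy))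
  · intro i u v huv
    have hne := hc i u v huv
    by_cases hu : c i u = true
    · have hv : c i v = false := by
        rw [hu] at hne
        simpa using hne.symm
      rw [hft i u hu, hff i v hv]
      simp [completeBipartiteGraph]
    · have hu' : c i u = false := by simpa using hu
      have hv : c i v = true := by
        rw [hu'] at hne
        simpa using hne.symm
      rw [hft i v hv, hff i u hu']
      simp [completeBipartiteGraph]
  · intro i j hij u v u' v' huv huv' heq
    obtain ⟨x, y, hx, hy, hxy, he⟩ := hedge i u v huv
    obtain ⟨x', y', hx', hy', hxy', he'⟩ := hedge j u' v' huv'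
    rw [he, he', Sym2.eq_iff] at heq
    rcases heq with ⟨h1, h2⟩ | ⟨h1, h2⟩
    · have h3 : φ i (a i x) = φ j (a j x') := Sum.inl_injective h1
      have h4 : β i (a i y) = β j (a j y') := Sum.inr_injective h2
      have hd := hpack i j (a i y) (a j y') hij h4
      rw [Finset.disjoint_left] at hd
      apply hd (a := φ i (a i x))
      · exact Finset.mem_map_of_mem _ (hadj i x y hx hy hxy)
      · rw [h3]
        exact Finset.mem_map_of_mem _ (hadj j x' y' hx' hy' hxy')
    · exact absurd h1 (by simp)

end H586TP.TaskG853

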