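import Pool.Agent.H586R3.TP.Stmts

/-!
# TaskL1 (helper871)
-/

set_option autoImplicit false

open Finset

namespace H586TP.TaskL1F

open Classical in
lemma card_sig {A : Type} [Fintype A] (n : ℕ) (y : A → ℕ) (P : A → Fin n → Prop) :
    (univ.filter (fun p : (Σ a, Fin (y a)) × Fin n => P p.1.1 p.2)).card =
      ∑ a, y a * (univ.filter (fun v => P a v)).card := by
  rw [card_filter, Fintype.sum_prod_type, Fintype.sum_sigma]
  refine sum_congr rfl fun a _ => ?_
  rw [card_filter]
  have h : ∀ x ∈ (univ : Finset (Fin (y a))), (∑ v : Fin n,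
      if P ((⟨a, x⟩ : Σ a, Fin (y a)), v).1.1 ((⟨a, x⟩ : Σ a, Fin (y a)), v).2 then 1 else 0) =
      ∑ i, if P a i then 1 else 0 := by
    intro x _
    refine sum_congr rfl fun v _ => ?_
    congr
  rw [sum_congr rfl h, sum_const, card_univ, Fintype.card_fin, smul_eq_mul]

open Classical in
lemma card_cls {A : Type} [Fintype A] (y : A → ℕ) (a : A) :
    (univ.filter (fun j : (Σ a, Fin (y a)) => j.1 = a)).card = y a := by
  rw [card_filter, Fintype.sum_sigma]
  rw [sum_eq_single a]
  · simp
  · intro b _ hb
    simp [hb]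
  · intro h
    exact absurd (mem_univ a) h

open Classical in
theorem taskL1 : TaskL1 := by
  intro hC hR n hn t
  obtain ⟨K, hK⟩ := hC n hn t 0 (fun i => i.elim0) (fun i => i.elim0)
  refine ⟨K, fun k hk => ?_⟩
  obtain ⟨y, x, hy, hsy, hsx, hcount⟩ := hK k hk
  let I : Type := Σ p : (Fin n ↪ Fin (2 * n - 1)), Fin (y p)
  let B : Type := Σ c : Col t, Fin (x c)
  let Λ : Type := B × Fin n
  have hIcard : Fintype.card I = k := by
    rw [Fintype.card_sigma, ← hsy]
    exact sum_congr rfl fun p _ => Fintype.card_fin _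
  have hBcard : Fintype.card B = k := by
    rw [Fintype.card_sigma, ← hsx, add_zero]
    exact sum_congr rfl fun p _ => Fintype.card_fin _
  obtain ⟨f, hf1, hf2, hf3⟩ := hR n t I Λ B (fun i => i.1) (fun l => l.1)
    (fun l => l.1.1.1 l.2)
    (by
      intro i
      have h := card_cls y i.1
      have h2 := hy i.1
      rw [← h] at h2
      convert h2)
    (by
      rintro ⟨b, v⟩ ⟨b', v'⟩ hne hcol
      simp only at hcol
      subst hcol
      exact b.1.2.2 v v' fun h => hne (by rw [h]))
    (by
      intro S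
      have h1 := card_sig n y (fun p v => (t.N v).map p = S)
      have h2 := card_sig n x (fun c v => c.1 v = S)
      have h3 := hcount S
      have h4 : ∀ s : Finset (Fin 0 × Fin n), s.card = 0 := by
        intro s
        rw [card_eq_zero]
        ext p
        exact p.1.elim0
      rw [h4, add_zero] at h3
      apply le_of_eq
      calc _ = ∑ φ, y φ * (univ.filter (fun v => (t.N v).map φ = S)).card := by convert h1
        _ = ∑ c : Col t, x c * (univ.filter (fun v => c.1 v = S)).card := h3
        _ = _ := by convert h2.symm)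
  let eI : Fin k ≃ I := (Fintype.equivFinOfCardEq hIcard).symm
  let eB : B ≃ Fin k := Fintype.equivFinOfCardEq hBcard
  refine ⟨fun i => (eI i).1, fun i => ⟨fun v => eB (f (eI i) v).1, ?_⟩, ?_⟩
  · intro v w h
    exact hf3 (eI i) (eB.injective h)
  · intro i j v w hij h
    have hcol : (f (eI i) v).1 = (f (eI j) w).1 := eB.injective h
    have hne : f (eI i) v ≠ f (eI j) w := fun he => hij (eI.injective (hf2 _ _ _ _ he).1)
    have hd : Disjoint ((f (eI i) v).1.1.1 (f (eI i) v).2) ((f (eI j) w).1.1.1 (f (eI j) w).2) := by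
      have hsnd : (f (eI i) v).2 ≠ (f (eI j) w).2 := fun h2 => hne (Prod.ext hcol h2)
      rw [hcol]
      exact (f (eI j) w).1.1.2.2 _ _ hsnd
    have e1 := hf1 (eI i) v
    have e2 := hf1 (eI j) w
    rw [e1, e2] at hd
    exact hd

end H586TP.TaskL1F
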