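import Mathlib
import Pool.Agent.H586R3.TP.Stmts

set_option autoImplicit false

open Finset

namespace H586TP.TaskL2File

/-- the count of a fibre in a sigma type -/
lemma card_sigma_fst {P : Type} [Fintype P] [DecidableEq P] (y : P → ℕ) (p : P) :
    (univ.filter (fun j : (Σ p : P, Fin (y p)) => j.1 = p)).card = y p := by
  classical
  have h : (univ.filter (fun j : (Σ p : P, Fin (y p)) => j.1 = p))
      = (univ : Finset (Fin (y p))).map ⟨fun a => ⟨p, a⟩, fun a b h => by simpa using h⟩ := by
    ext ⟨a, b⟩
    simp only [mem_filter, mem_univ, true_and, mem_map]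
    constructor
    · rintro rfl
      exact ⟨b, rfl⟩
    · rintro ⟨c, hc⟩
      exact (congrArg Sigma.fst hc).symm
  rw [h, card_map, card_univ, Fintype.card_fin]

/-- count of pairs over a sigma type -/
lemma card_sigma_prod {P : Type} [Fintype P] {n : ℕ} (y : P → ℕ) (Q : P → Fin n → Prop)
    [∀ p v, Decidable (Q p v)] :
    (univ.filter (fun j : (Σ p : P, Fin (y p)) × Fin n => Q j.1.1 j.2)).card
      = ∑ p, y p * (univ.filter (fun v => Q p v)).card := by
  classical
  rw [card_filter, Fintype.sum_prod_type, Fintype.sum_sigma]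
  refine sum_congr rfl fun p _ => ?_
  have h : ∀ x : Fin (y p), (∑ v : Fin n, if Q (⟨p, x⟩ : Σ p : P, Fin (y p)).1 v then 1 else 0)
      = (univ.filter (fun v => Q p v)).card := fun x => (card_filter _ _).symm
  refine (sum_congr rfl fun x _ => h x).trans ?_
  rw [sum_const, card_univ, Fintype.card_fin, smul_eq_mul]

open Classical in
theorem taskL2 : H586TP.TaskL2 := by
  intro hCount hReal hS hD n hn t₀ t
  obtain ⟨m, rfl⟩ : ∃ m, n = m + 1 := ⟨n - 1, by omega⟩
  set N : ℕ := 2 * (m + 1) - 1 with hN
  have hNn : m + 1 ≤ N := by omega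
  let p0 : Fin (m + 1) ↪ Fin N := Fin.castLEEmb hNn
  let S : Fin (m + 1) → Finset (Fin N) := fun j => (t₀.N j).map p0
  have hScard : ∀ j, (S j).card = (t₀.N j).card := fun j => card_map _
  have hd0 : ∀ j, (t₀.N j).card ≤ N := fun j => by
    have h1 := t₀.sum
    have h2 := single_le_sum (f := fun v => (t₀.N v).card) (fun _ _ => Nat.zero_le _) (mem_univ j)
    have h3 : (t₀.N j).card ≤ ∑ v, (t₀.N v).card := h2
    omega
  have hW : ∀ i : Fin m, ∃ W : Finset (Fin (m + 1)), ∑ v ∈ W, (t.N v).card = (t₀.N i.succ).card :=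
    fun i => hS (m + 1) (fun v => (t.N v).card) (fun v => card_pos.2 (t.ne v)) t.sum _ (hd0 _)
  choose W hW using hW
  let κ : Fin m × Fin (m + 1) → Fin (m + 1) := fun p => if p.2 ∈ W p.1 then 0 else p.1.succ
  have hcol : ∀ j : Fin (m + 1), ∑ p : Fin m × Fin (m + 1), (if κ p = j then (t.N p.2).card else 0)
      ≤ (univ \ S j).card := by
    intro j
    have hc : (univ \ S j).card = N - (t₀.N j).card := by
      rw [card_univ_sdiff, Fintype.card_fin, hScard]
    rw [hc, Fintype.sum_prod_type]
    refine Fin.cases ?_ (fun j' => ?_) j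
    · -- column 0
      have h1 : ∀ i : Fin m, ∑ v : Fin (m + 1), (if κ (i, v) = 0 then (t.N v).card else 0)
          = (t₀.N i.succ).card := by
        intro i
        rw [← hW i, ← sum_filter]
        refine sum_congr ?_ fun _ _ => rfl
        ext v
        simp only [mem_filter, mem_univ, true_and, κ]
        by_cases hv : v ∈ W i
        · simp [hv]
        · simp [hv, Fin.succ_ne_zero]
      rw [sum_congr rfl fun i _ => h1 i]
      have h2 := t₀.sum
      rw [Fin.sum_univ_succ] at h2
      omega
    · -- column j'+1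
      have h1 : ∀ i : Fin m, i ≠ j' →
          ∑ v : Fin (m + 1), (if κ (i, v) = j'.succ then (t.N v).card else 0) = 0 := by
        intro i hi
        refine sum_eq_zero fun v _ => ?_
        rw [if_neg]
        simp only [κ]
        by_cases hv : v ∈ W i
        · simp only [hv, if_true]
          exact (Fin.succ_ne_zero j').symm
        · simp only [hv, if_false]
          intro h
          exact hi (Fin.succ_injective _ h)
      rw [sum_eq_single j' (fun i _ hi => h1 i hi) (fun h => absurd (mem_univ _) h)]
      have h2 : ∑ v : Fin (m + 1), (if κ (j', v) = j'.succ then (t.N v).card else 0)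
          + ∑ v ∈ W j', (t.N v).card = ∑ v, (t.N v).card := by
        have h3 : ∑ v ∈ W j', (t.N v).card
            = ∑ v : Fin (m + 1), (if v ∈ W j' then (t.N v).card else 0) := by
          rw [← sum_filter]
          refine sum_congr ?_ fun _ _ => rfl
          ext v; simp
        rw [h3, ← sum_add_distrib]
        refine sum_congr rfl fun v _ => ?_
        by_cases hv : v ∈ W j'
        · simp [κ, hv, (Fin.succ_ne_zero j').symm]
        · simp [κ, hv]
      rw [hW j', t.sum] at h2
      omega
  choose Zc hZcard hZsub hZdis using fun j : Fin (m + 1) =>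
    hD (Fin N) (Fin m × Fin (m + 1)) (univ \ S j)
      (fun p => if κ p = j then (t.N p.2).card else 0) (hcol j)
  let Z : Fin m → Fin (m + 1) → Finset (Fin N) := fun i v => Zc (κ (i, v)) (i, v)
  have hZ : ∀ i v, (Z i v).card = (t.N v).card := by
    intro i v
    simp only [Z]
    rw [hZcard]
    simp
  obtain ⟨K, hK⟩ := hCount (m + 1) hn t m Z hZ
  obtain ⟨y, x, hy, hysum, hxsum, hcount⟩ := hK K le_rfl
  let I : Type := Σ p : (Fin (m + 1) ↪ Fin N), Fin (y p)
  let B' : Type := Σ c : Col t, Fin (x c)
  let Λ : Type := (B' × Fin (m + 1)) ⊕ (Fin m × Fin (m + 1))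
  let col : Λ → B' ⊕ Fin (m + 1) := Sum.elim (fun p => Sum.inl p.1) (fun p => Sum.inr (κ p))
  let ZZ : Λ → Finset (Fin N) := Sum.elim (fun p => p.1.1.1 p.2) (fun p => Z p.1 p.2)
  have hdis : ∀ l l' : Λ, l ≠ l' → col l = col l' → Disjoint (ZZ l) (ZZ l') := by
    rintro (⟨b, v⟩ | ⟨i, v⟩) (⟨b', v'⟩ | ⟨i', v'⟩) hne heq
    · have hb : b = b' := Sum.inl_injective heq
      subst hb
      refine b.1.2.2 v v' ?_
      rintro rfl
      exact hne rfl
    · exact absurd heq (by simp [col])
    · exact absurd heq (by simp [col])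
    · have hk : κ (i, v) = κ (i', v') := Sum.inr_injective heq
      change Disjoint (Zc (κ (i, v)) (i, v)) (Zc (κ (i', v')) (i', v'))
      rw [hk]
      refine hZdis _ _ _ ?_
      intro h
      exact hne (by rw [h])
  obtain ⟨f, hf1, hf2, hf3⟩ := hReal (m + 1) t I Λ (B' ⊕ Fin (m + 1)) (fun i => i.1) col ZZ
    (by
      intro i
      have := card_sigma_fst y i.1
      refine le_trans (hy i.1) (le_of_eq ?_)
      rw [← this])
    hdis
    (by
      intro T
      have h1 := card_sigma_prod y (fun p v => (t.N v).map p = T)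
      have h2 := card_sigma_prod x (fun c v => c.1 v = T)
      have h3 : (univ.filter (fun l : Λ => ZZ l = T)).card
          = (univ.filter (fun p : B' × Fin (m + 1) => p.1.1.1 p.2 = T)).card
            + (univ.filter (fun p : Fin m × Fin (m + 1) => Z p.1 p.2 = T)).card := by
        rw [card_filter, Fintype.sum_sum_type, card_filter, card_filter]
        rfl
      rw [h3]
      refine le_of_eq ?_
      refine Eq.trans h1 ?_
      rw [hcount T]
      congr 1
      exact h2.symm)
  have hcI : Fintype.card (Fin K) = Fintype.card I := by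
    rw [Fintype.card_fin, Fintype.card_sigma]
    simp only [Fintype.card_fin]
    exact hysum.symm
  have hcB : Fintype.card (B' ⊕ Fin (m + 1)) = Fintype.card (Option (Fin K)) := by
    rw [Fintype.card_sum, Fintype.card_sigma, Fintype.card_option, Fintype.card_fin,
      Fintype.card_fin]
    simp only [Fintype.card_fin]
    omega
  let eI : Fin K ≃ I := Fintype.equivOfCardEq hcI
  let eB : (B' ⊕ Fin (m + 1)) ≃ Option (Fin K) := Fintype.equivOfCardEq hcB
  have hnone : ∀ (a : Fin K) (v w : Fin (m + 1)),
      eB (Sum.inr v) = eB (col (f (eI a) w)) →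
        Disjoint ((t₀.N v).map p0) ((t.N w).map (eI a).1) := by
    intro a v w h
    have h1 := eB.injective h
    rw [← hf1 (eI a) w]
    rcases hl : f (eI a) w with ⟨b, v'⟩ | ⟨i', v'⟩
    · rw [hl] at h1
      exact absurd h1 (by simp [col])
    · rw [hl] at h1
      have h2 : v = κ (i', v') := Sum.inr_injective h1
      change Disjoint (S v) (Zc (κ (i', v')) (i', v'))
      rw [← h2]
      exact Finset.disjoint_of_subset_right (hZsub v (i', v')) disjoint_sdiff
  refine ⟨K, fun i => i.elim p0 (fun a => (eI a).1), fun i => i.elim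
    ⟨fun v => eB (Sum.inr v), fun v w h => Sum.inr_injective (eB.injective h)⟩
    (fun a => ⟨fun v => eB (col (f (eI a) v)), fun v w h => hf3 (eI a) (eB.injective h)⟩), ?_⟩
  rintro (_ | a) (_ | b) v w hab h
  · exact absurd rfl hab
  · exact hnone b v w h
  · exact (hnone a w v h.symm).symm
  · have hab' : a ≠ b := fun h => hab (by rw [h])
    have h1 : col (f (eI a) v) = col (f (eI b) w) := eB.injective h
    change Disjoint ((t.N v).map (eI a).1) ((t.N w).map (eI b).1)
    rw [← hf1 (eI a) v, ← hf1 (eI b) w]
    refine hdis _ _ ?_ h1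
    intro h2
    exact hab' (eI.injective (hf2 _ _ _ _ h2).1)

end H586TP.TaskL2File
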