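import Mathlib
import Pool.Agent.H586R3.TP.Stmts

/-!
Project H586-TP (helper586), task TaskR (helper174).
-/

set_option autoImplicit false

namespace H586TP.TaskR

open Finset

theorem card_le_of_cover {I B : Type} {m : ℕ} [Fintype I] [DecidableEq I] (g : Fin m → I → B)
    (hg : ∀ v, Function.Injective (g v)) (c : Fin m → B) (s : Finset I)
    (hs : ∀ i ∈ s, ∃ v, g v i = c v) : s.card ≤ m := by
  classical
  have h1 : s ⊆ (univ : Finset (Fin m)).biUnion (fun v => univ.filter (fun i => g v i = c v)) := by
    intro i hi
    obtain ⟨v, hv⟩ := hs i hi
    simp only [mem_biUnion, mem_filter, mem_univ, true_and]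
    exact ⟨v, hv⟩
  calc s.card ≤ _ := card_le_card h1
    _ ≤ (univ : Finset (Fin m)).card * 1 := by
        apply card_biUnion_le_card_mul
        intro v _
        rw [card_le_one]
        intro a ha b hb
        exact hg v ((mem_filter.1 ha).2.trans (mem_filter.1 hb).2.symm)
    _ = m := by simp

theorem taskR : H586TP.TaskR := by
  classical
  intro m
  induction m with
  | zero =>
    intro I B _ β _ _
    exact ⟨fun v => v.elim0, fun i v => v.elim0⟩
  | succ m ih =>
    intro I B _ β hβ hcard
    obtain ⟨π, hπ⟩ := ih I B (fun v => β v.castSucc) (fun v => hβ _) (by omega)
    set b : I → B := β (Fin.last m) with hb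
    let al : I → Finset I := fun i =>
      univ.filter (fun i' => ∀ v : Fin m, b i' ≠ β v.castSucc (π v i))
    have h1 : ∀ i, Fintype.card I ≤ (al i).card + m := by
      intro i
      have h2 : ((al i)ᶜ).card ≤ m := by
        apply card_le_of_cover (fun _ => b) (fun _ => hβ _) (fun v => β v.castSucc (π v i))
        intro i' hi'
        rw [mem_compl] at hi'
        simp only [al, mem_filter, mem_univ, true_and, not_forall, not_not] at hi'
        exact hi'
      rw [card_compl] at h2
      omega
    have hall : ∀ s : Finset I, s.card ≤ (s.biUnion al).card := by
      intro s
      rcases s.eq_empty_or_nonempty with rfl | ⟨i, hi⟩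
      · simp
      · by_cases hs : s.card + m ≤ Fintype.card I
        · have h3 : (al i).card ≤ (s.biUnion al).card :=
            card_le_card (subset_biUnion_of_mem al hi)
          have := h1 i
          omega
        · have h4 : s.biUnion al = univ := by
            rw [eq_univ_iff_forall]
            intro i'
            by_contra hcon
            have h5 : s.card ≤ m := by
              apply card_le_of_cover (fun v i => β v.castSucc (π v i))
                (fun v => (hβ _).comp (π v).injective) (fun _ => b i')
              intro i hi
              by_contra h6
              apply hcon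
              rw [mem_biUnion]
              refine ⟨i, hi, ?_⟩
              simp only [al, mem_filter, mem_univ, true_and]
              intro v hv
              exact h6 ⟨v, hv.symm⟩
            omega
          rw [h4]
          exact card_le_univ s
    obtain ⟨f, hf, hfa⟩ := (all_card_le_biUnion_card_iff_exists_injective al).1 hall
    have hbij : Function.Bijective f := Finite.injective_iff_bijective.1 hf
    refine ⟨Fin.snoc (α := fun _ => Equiv.Perm I) π (Equiv.ofBijective f hbij), ?_⟩
    have hlast : ∀ i, ∀ v : Fin m, b (f i) ≠ β v.castSucc (π v i) := by
      intro i
      have := hfa i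
      simpa only [al, mem_filter, mem_univ, true_and] using this
    intro i v v' hvv
    revert hvv
    refine Fin.lastCases ?_ ?_ v
    · refine Fin.lastCases ?_ ?_ v'
      · intro _; rfl
      · intro u' h
        simp only [Fin.snoc_last, Fin.snoc_castSucc, Equiv.ofBijective_apply] at h
        exact absurd h (hlast i u')
    · intro u
      refine Fin.lastCases ?_ ?_ v'
      · intro h
        simp only [Fin.snoc_last, Fin.snoc_castSucc, Equiv.ofBijective_apply] at h
        exact absurd h.symm (hlast i u)
      · intro u' h
        simp only [Fin.snoc_castSucc] at h
        rw [hπ i h]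

end H586TP.TaskR
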