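import Mathlib
import Pool.Agent.H586R3.TP.Stmts

/-! Project H586-TP, task S: all subset sums (helper589). -/

set_option autoImplicit false

open Finset

namespace H586TP.TaskS

lemma aux {n : ℕ} (d : Fin n → ℕ) (hd : ∀ v, 1 ≤ d v) (Y : Finset (Fin n)) :
    ∑ v ∈ Y, d v + 1 ≤ 2 * Y.card → ∀ s : ℕ, s ≤ ∑ v ∈ Y, d v → ∃ W ⊆ Y, ∑ v ∈ W, d v = s := by
  classical
  induction Y using Finset.strongInduction with
  | H Y ih =>
    intro hY s hs
    by_cases hall : ∀ v ∈ Y, d v = 1
    · have hsum : ∑ v ∈ Y, d v = Y.card := by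
        rw [Finset.sum_congr rfl hall]
        simp
      obtain ⟨W, hW, hWc⟩ := Finset.exists_subset_card_eq (s := Y) (n := s) (by omega)
      refine ⟨W, hW, ?_⟩
      rw [Finset.sum_congr rfl (fun v hv => hall v (hW hv))]
      simpa using hWc
    · push Not at hall
      obtain ⟨p, hp, hp1⟩ := hall
      have hp2 : 2 ≤ d p := by
        have := hd p
        omega
      have hsplit : d p + ∑ v ∈ Y.erase p, d v = ∑ v ∈ Y, d v := Finset.add_sum_erase Y d hp
      have hcard : (Y.erase p).card + 1 = Y.card := Finset.card_erase_add_one hp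
      have hlow : (Y.erase p).card ≤ ∑ v ∈ Y.erase p, d v := by
        calc (Y.erase p).card = ∑ v ∈ Y.erase p, 1 := by simp
          _ ≤ ∑ v ∈ Y.erase p, d v := Finset.sum_le_sum fun v _ => hd v
      have hY' : ∑ v ∈ Y.erase p, d v + 1 ≤ 2 * (Y.erase p).card := by omega
      by_cases hs' : s ≤ ∑ v ∈ Y.erase p, d v
      · obtain ⟨W, hW, hWs⟩ := ih (Y.erase p) (Finset.erase_ssubset hp) hY' s hs'
        exact ⟨W, hW.trans (Finset.erase_subset _ _), hWs⟩
      · obtain ⟨W, hW, hWs⟩ := ih (Y.erase p) (Finset.erase_ssubset hp) hY' (s - d p) (by omega)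
        have hpW : p ∉ W := fun h => Finset.notMem_erase p Y (hW h)
        refine ⟨insert p W, ?_, ?_⟩
        · exact Finset.insert_subset hp (hW.trans (Finset.erase_subset _ _))
        · rw [Finset.sum_insert hpW, hWs]
          omega

theorem taskS : H586TP.TaskS := by
  intro n d hd hsum s hs
  rcases Nat.eq_zero_or_pos n with hn | hn
  · subst hn
    refine ⟨∅, ?_⟩
    simp only [Finset.sum_empty]
    omega
  · obtain ⟨W, -, hW⟩ := aux d hd Finset.univ (by rw [hsum]; simp; omega) s (by rw [hsum]; exact hs)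
    exact ⟨W, hW⟩

end H586TP.TaskS
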