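import Pool.Agent.H586R3.TP.Stmts

/-! Task X of project H586-TP: realisation of the counts. -/

set_option autoImplicit false

open Finset

namespace H586TP.TaskX

open Classical in
/-- an injective assignment with prescribed labels -/
theorem assign {P L γ : Type} [Fintype P] [Fintype L] (s : P → γ) (Z : L → γ)
    (h : ∀ S, (univ.filter (fun p => s p = S)).card ≤ (univ.filter (fun l => Z l = S)).card) :
    ∃ f : P → L, Function.Injective f ∧ ∀ p, Z (f p) = s p := by
  have h1 : ∀ S, Nonempty ({p // s p = S} ↪ {l // Z l = S}) := by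
    intro S
    refine Function.Embedding.nonempty_of_card_le ?_
    rw [Fintype.card_subtype, Fintype.card_subtype]
    exact h S
  have e : ∀ S, ({p // s p = S} ↪ {l // Z l = S}) := fun S => (h1 S).some
  have aux : ∀ (q : P) (S : γ) (hS : s q = S), (e S ⟨q, hS⟩).1 = (e (s q) ⟨q, rfl⟩).1 := by
    rintro q S rfl
    rfl
  have hZ : ∀ p, Z ((e (s p) ⟨p, rfl⟩).1) = s p := fun p => (e (s p) ⟨p, rfl⟩).2
  refine ⟨fun p => (e (s p) ⟨p, rfl⟩).1, ?_, hZ⟩
  intro p q hpq
  change (e (s p) ⟨p, rfl⟩).1 = (e (s q) ⟨q, rfl⟩).1 at hpq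
  have h2 : s q = s p := by
    rw [← hZ p, ← hZ q, hpq]
  rw [← aux q (s p) h2] at hpq
  have := (e (s p)).injective (Subtype.ext hpq)
  exact congrArg Subtype.val this

theorem main (hR : TaskR) : Real := by
  classical
  intro n t I L B _ _ φ col Z hφ hdis hcount
  obtain ⟨f0, hf0, hZ0⟩ := assign (P := I × Fin n) (L := L)
    (fun p => (t.N p.2).map (φ p.1)) Z (by
      intro S
      convert hcount S)
  have hβ : ∀ (p : Fin n ↪ Fin (2 * n - 1)) (v : Fin n),
      Function.Injective (fun i : {i // φ i = p} => col (f0 (i.1, v))) := by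
    intro p v i j hij
    change col (f0 (i.1, v)) = col (f0 (j.1, v)) at hij
    by_contra hne
    have h1 : f0 (i.1, v) ≠ f0 (j.1, v) := by
      intro h
      have := hf0 h
      exact hne (Subtype.ext (congrArg Prod.fst this))
    have h2 := hdis _ _ h1 hij
    rw [hZ0, hZ0] at h2
    change Disjoint ((t.N v).map (φ i.1)) ((t.N v).map (φ j.1)) at h2
    rw [i.2, j.2, disjoint_self] at h2
    have h3 : ((t.N v).map p).Nonempty := (t.ne v).map
    rw [h2] at h3
    simp at h3
  have hπ : ∀ p : Fin n ↪ Fin (2 * n - 1), ∃ π : Fin n → Equiv.Perm {i // φ i = p},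
      ∀ i, Function.Injective (fun v => col (f0 ((π v i).1, v))) := by
    intro p
    rcases isEmpty_or_nonempty {i // φ i = p} with he | ⟨⟨i, hi⟩⟩
    · exact ⟨fun _ => 1, fun i => he.elim i⟩
    · refine hR n {i // φ i = p} B (fun v i => col (f0 (i.1, v))) (fun v => hβ p v) ?_
      have := hφ i
      rw [hi] at this
      rw [Fintype.card_subtype]
      convert this
  choose π hπ using hπ
  have aux : ∀ (i : I) (v : Fin n) (p : Fin n ↪ Fin (2 * n - 1)) (hp : φ i = p),
      (π (φ i) v ⟨i, rfl⟩).1 = (π p v ⟨i, hp⟩).1 := by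
    rintro i v p rfl
    rfl
  refine ⟨fun i v => f0 ((π (φ i) v ⟨i, rfl⟩).1, v), ?_, ?_, ?_⟩
  · intro i v
    rw [hZ0]
    change (t.N v).map (φ (π (φ i) v ⟨i, rfl⟩).1) = _
    rw [(π (φ i) v ⟨i, rfl⟩).2]
  · intro i j v w h
    have h1 := hf0 h
    have hv : v = w := congrArg Prod.snd h1
    have h2 : (π (φ i) v ⟨i, rfl⟩).1 = (π (φ j) w ⟨j, rfl⟩).1 := congrArg Prod.fst h1
    subst hv
    refine ⟨?_, rfl⟩
    have h3 : φ j = φ i := by
      rw [← (π (φ i) v ⟨i, rfl⟩).2, ← (π (φ j) v ⟨j, rfl⟩).2, h2]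
    rw [aux j v (φ i) h3] at h2
    have h4 := (π (φ i) v).injective (Subtype.ext h2)
    exact congrArg Subtype.val h4
  · intro i
    exact hπ (φ i) ⟨i, rfl⟩

theorem taskX : H586TP.TaskX := main

end H586TP.TaskX
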